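import Pool.Agent.helper92.FV.Defs2

/-!
# MP_51fbee_al : the functor adjoining one even variable
-/

namespace FV

universe u

variable {k : Type u} [Field k]

open Polynomial

namespace DGA

lemma AE_pow_mem (B : DGA k) {i j : ℤ} {b : B.A} (hb : b ∈ B.gr i j) (t : ℕ) :
    b ^ t ∈ B.gr (t * i) (t * j) := by
  induction t with
  | zero => simpa using B.one_mem
  | succ t ih =>
    rw [pow_succ]
    have := B.mul_mem ih hb
    rwa [show (t : ℤ) * i + i = ((t + 1 : ℕ) : ℤ) * i by push_cast; ring,
      show (t : ℤ) * j + j = ((t + 1 : ℕ) : ℤ) * j by push_cast; ring] at this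

lemma AE_d_pow (B : DGA k) {i j : ℤ} (hi : Even i) {b : B.A} (hb : b ∈ B.gr i j) (t : ℕ) :
    B.d (b ^ t) = (t : k) • (B.d b * b ^ (t - 1)) := by
  have hc : ∀ a, a * b = b * a := B.comm_even hb hi
  have hε : B.ε b = b := by rw [B.ε_gr hb, sg_even hi, one_smul]
  induction t with
  | zero => simp [B.d_one]
  | succ t ih =>
    rw [pow_succ, B.d_mul, ih, map_pow, hε, smul_mul_assoc]
    have e1 : b ^ t * B.d b = B.d b * b ^ t := by
      have : Commute (B.d b) b := hc _
      exact (this.pow_right t).eq.symm
    have e2 : (t : k) • (B.d b * b ^ (t - 1) * b) = (t : k) • (B.d b * b ^ t) := by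
      rcases Nat.eq_zero_or_pos t with rfl | ht
      · simp
      · rw [mul_assoc, ← pow_succ, Nat.sub_add_cancel ht]
    rw [e1, e2]
    have : ((t + 1 : ℕ) : k) = (t : k) + 1 := by push_cast; rfl
    rw [this, add_smul, one_smul, Nat.add_sub_cancel]

/-- The constant polynomials. -/
noncomputable def AE_inc (A : DGA k) (i j : ℤ) (z : A.A) (hi : Even i) (h : AdjData A i j z) :
    Hom A (A.adjE i j z hi h) where
  f := (Polynomial.CAlgHom : A.A →ₐ[k] A.A[X])
  f_ε a := by
    show C (A.ε a) = Polynomial.mapAlgHom A.ε (C a)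
    simp [Polynomial.mapAlgHom]
  f_d a := by
    show C (A.d a) = A.dE z (C a)
    rw [← monomial_zero_left, ← monomial_zero_left, dE_monomial]
    simp
  f_mem := by
    intro n m a ha t
    show (C a).coeff t ∈ _
    rw [coeff_C]
    split_ifs with ht
    · subst ht; simpa using ha
    · exact Submodule.zero_mem _

/-- Evaluation. -/
noncomputable def AE_lift (A : DGA k) (i j : ℤ) (z : A.A) (hi : Even i) (h : AdjData A i j z)
    (B : DGA k) (f : Hom A B) (b : B.A) (hb : b ∈ B.gr i j) (hd : B.d b = f.f z) :
    Hom (A.adjE i j z hi h) B where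
  f := ({ Polynomial.eval₂RingHom' (f.f : A.A →+* B.A) b
            (fun a => B.comm_even hb hi (f.f a)) with
          commutes' := fun c => by
            show Polynomial.eval₂ (f.f : A.A →+* B.A) b (C (algebraMap k A.A c)) = _
            rw [eval₂_C]
            exact f.f.commutes c } : A.A[X] →ₐ[k] B.A)
  f_ε p := by
    have hε : B.ε b = b := by rw [B.ε_gr hb, sg_even hi, one_smul]
    show Polynomial.eval₂ (f.f : A.A →+* B.A) b (Polynomial.mapAlgHom A.ε p) =
      B.ε (Polynomial.eval₂ (f.f : A.A →+* B.A) b p)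
    induction p using Polynomial.induction_on' with
    | add p q hp hq => rw [map_add, eval₂_add, eval₂_add, map_add, hp, hq]
    | monomial t a =>
      have : Polynomial.mapAlgHom A.ε (monomial t a) = monomial t (A.ε a) := by
        simp [Polynomial.mapAlgHom]
      rw [this, eval₂_monomial, eval₂_monomial, map_mul, map_pow, hε]
      show f.f (A.ε a) * b ^ t = B.ε (f.f a) * b ^ t
      rw [f.f_ε]
  f_d p := by
    show Polynomial.eval₂ (f.f : A.A →+* B.A) b (A.dE z p) =
      B.d (Polynomial.eval₂ (f.f : A.A →+* B.A) b p)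
    induction p using Polynomial.induction_on' with
    | add p q hp hq => rw [map_add, eval₂_add, eval₂_add, map_add, hp, hq]
    | monomial t a =>
      rw [dE_monomial, eval₂_add, eval₂_monomial, eval₂_monomial, eval₂_monomial, B.d_mul,
        AE_d_pow B hi hb, hd]
      show f.f (A.d a) * b ^ t + f.f ((t : k) • (A.ε a * z)) * b ^ (t - 1)
        = B.d (f.f a) * b ^ t + B.ε (f.f a) * ((t : k) • (f.f z * b ^ (t - 1)))
      rw [f.f_d, map_smul, map_mul, f.f_ε, smul_mul_assoc, mul_smul_comm, mul_assoc]
  f_mem := by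
    intro n m p hp
    show Polynomial.eval₂ (f.f : A.A →+* B.A) b p ∈ B.gr n m
    rw [Polynomial.eval₂_eq_sum, Polynomial.sum_def]
    refine Submodule.sum_mem _ fun t _ => ?_
    have := B.mul_mem (f.f_mem (hp t)) (AE_pow_mem B hb t)
    rwa [sub_add_cancel, sub_add_cancel] at this

lemma AE_lift_C (A : DGA k) (i j : ℤ) (z : A.A) (hi : Even i) (h : AdjData A i j z)
    (B : DGA k) (f : Hom A B) (b : B.A) (hb : b ∈ B.gr i j) (hd : B.d b = f.f z) (a : A.A) :
    (AE_lift A i j z hi h B f b hb hd).f ((AE_inc A i j z hi h).f a) = f.f a := by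
  show Polynomial.eval₂ (f.f : A.A →+* B.A) b (C a) = f.f a
  rw [eval₂_C]; rfl

lemma AE_lift_X (A : DGA k) (i j : ℤ) (z : A.A) (hi : Even i) (h : AdjData A i j z)
    (B : DGA k) (f : Hom A B) (b : B.A) (hb : b ∈ B.gr i j) (hd : B.d b = f.f z) :
    (AE_lift A i j z hi h B f b hb hd).f (X : A.A[X]) = b := by
  show Polynomial.eval₂ (f.f : A.A →+* B.A) b X = b
  rw [eval₂_X]

/-- The map of polynomial rings. -/
noncomputable def AE_map {A B : DGA k} (i j : ℤ) (hi : Even i) (f : Hom A B) (z : A.A)
    (h : AdjData A i j z) (h' : AdjData B i j (f.f z)) :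
    Hom (A.adjE i j z hi h) (B.adjE i j (f.f z) hi h') where
  f := (Polynomial.mapAlgHom f.f : A.A[X] →ₐ[k] B.A[X])
  f_ε p := by
    show Polynomial.mapAlgHom f.f (Polynomial.mapAlgHom A.ε p) =
      Polynomial.mapAlgHom B.ε (Polynomial.mapAlgHom f.f p)
    ext t
    simp [Polynomial.mapAlgHom, f.f_ε]
  f_d p := by
    show Polynomial.mapAlgHom f.f (A.dE z p) = B.dE (f.f z) (Polynomial.mapAlgHom f.f p)
    have hc : ∀ (q : A.A[X]) (t : ℕ), (Polynomial.mapAlgHom f.f q).coeff t = f.f (q.coeff t) := by
      intro q t; simp [Polynomial.mapAlgHom]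
    ext t
    rw [hc, coeff_dE, coeff_dE, hc, hc, map_add, f.f_d, map_smul, map_mul, f.f_ε]
  f_mem := by
    intro n m p hp t
    show (Polynomial.mapAlgHom f.f p).coeff t ∈ _
    have : (Polynomial.mapAlgHom f.f p).coeff t = f.f (p.coeff t) := by
      simp [Polynomial.mapAlgHom]
    rw [this]
    exact f.f_mem (hp t)

lemma AE_map_coeff {A B : DGA k} (i j : ℤ) (hi : Even i) (f : Hom A B) (z : A.A)
    (h : AdjData A i j z) (h' : AdjData B i j (f.f z)) (p : A.A[X]) (t : ℕ) :
    (show B.A[X] from (AE_map i j hi f z h h').f p).coeff t = f.f (p.coeff t) := by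
  show (Polynomial.mapAlgHom f.f p).coeff t = _
  simp [Polynomial.mapAlgHom]

lemma AE_exists_poly {A : Type u} [Ring A] (N : ℕ) (y : ℕ → A) (hy : ∀ t, N < t → y t = 0) :
    ∃ p : A[X], ∀ t, p.coeff t = y t := by
  refine ⟨∑ t ∈ Finset.range (N + 1), monomial t (y t), fun t => ?_⟩
  rw [finsetSum_coeff]
  simp only [coeff_monomial]
  by_cases ht : t < N + 1
  · rw [Finset.sum_eq_single t]
    · simp
    · intro s _ hs; simp [hs]
    · intro h; exact absurd (Finset.mem_range.mpr ht) h
  · rw [hy t (by omega)]
    refine Finset.sum_eq_zero fun s hs => ?_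
    have := Finset.mem_range.mp hs
    rw [if_neg (by omega)]

lemma AE_C_mul_coeff {A : DGA k} (v : A.A) (p : A.A[X]) (t : ℕ) :
    (C v * p).coeff t = v * p.coeff t := coeff_C_mul _

lemma AE_step {A B : DGA k} (i j : ℤ) (hi : Even i) (f : Hom A B) (z : A.A)
    (h : AdjData A i j z) (h' : AdjData B i j (f.f z)) (i' j' : ℤ) (v : A.A)
    (hs : IsStep f i' j' v) :
    IsStep (AE_map i j hi f z h h') i' j' ((AE_inc A i j z hi h).f v) where
  mem := (AE_inc A i j z hi h).f_mem hs.mem
  dv := by rw [← (AE_inc A i j z hi h).f_d, hs.dv, map_zero]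
  gv := by
    show (Polynomial.mapAlgHom f.f) (C v) = (0 : B.A[X])
    simp [Polynomial.mapAlgHom, hs.gv]
  even := by
    intro he x hx
    have hx' : C v * (show A.A[X] from x) = 0 := hx
    show (show A.A[X] from x) = 0
    ext t
    have := congrArg (fun q : A.A[X] => q.coeff t) hx'
    simp only [coeff_C_mul, coeff_zero] at this
    rw [coeff_zero]
    exact hs.even he _ this
  odd := by
    intro ho x
    constructor
    · intro hx
      have hx' : C v * (show A.A[X] from x) = 0 := hx
      show (show B.A[X] from (AE_map i j hi f z h h').f x) = 0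
      ext t
      rw [AE_map_coeff, coeff_zero]
      have := congrArg (fun q : A.A[X] => q.coeff t) hx'
      simp only [coeff_C_mul, coeff_zero] at this
      exact (hs.odd ho _).mp this
    · intro hx
      have hx' : (show B.A[X] from (AE_map i j hi f z h h').f x) = 0 := hx
      show C v * (show A.A[X] from x) = 0
      ext t
      rw [coeff_C_mul, coeff_zero]
      refine (hs.odd ho _).mpr ?_
      rw [← AE_map_coeff i j hi f z h h', hx', coeff_zero]
  ker := by
    intro n m x hx hx0
    have hx' : (show B.A[X] from (AE_map i j hi f z h h').f x) = 0 := hx0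
    have h1 : ∀ t : ℕ, ∃ y, y ∈ A.gr (n - t * i - i') (m - t * j - j') ∧
        v * y = (show A.A[X] from x).coeff t ∧ ((show A.A[X] from x).coeff t = 0 → y = 0) := by
      intro t
      by_cases h0 : (show A.A[X] from x).coeff t = 0
      · exact ⟨0, Submodule.zero_mem _, by rw [mul_zero, h0], fun _ => rfl⟩
      · obtain ⟨y, hy, hy'⟩ := hs.ker _ _ _ (hx t) (by
          rw [← AE_map_coeff i j hi f z h h', hx', coeff_zero])
        exact ⟨y, hy, hy', fun h => absurd h h0⟩
    choose y hy hy1 hy2 using h1
    obtain ⟨p, hp⟩ := AE_exists_poly (show A.A[X] from x).natDegree y (fun t ht =>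
      hy2 t (coeff_eq_zero_of_natDegree_lt ht))
    refine ⟨p, ?_, ?_⟩
    · intro t
      rw [hp]
      have := hy t
      rwa [show n - (t : ℤ) * i - i' = n - i' - t * i by ring,
        show m - (t : ℤ) * j - j' = m - j' - t * j by ring] at this
    · show C v * p = x
      ext t
      rw [coeff_C_mul, hp, hy1]
  surj := by
    intro n m x hx
    have h1 : ∀ t : ℕ, ∃ y, y ∈ A.gr (n - t * i) (m - t * j) ∧
        f.f y = (show B.A[X] from x).coeff t ∧ ((show B.A[X] from x).coeff t = 0 → y = 0) := by
      intro t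
      by_cases h0 : (show B.A[X] from x).coeff t = 0
      · exact ⟨0, Submodule.zero_mem _, by rw [map_zero, h0], fun _ => rfl⟩
      · obtain ⟨y, hy, hy'⟩ := hs.surj _ _ _ (hx t)
        exact ⟨y, hy, hy', fun h => absurd h h0⟩
    choose y hy hy1 hy2 using h1
    obtain ⟨p, hp⟩ := AE_exists_poly (show B.A[X] from x).natDegree y (fun t ht =>
      hy2 t (coeff_eq_zero_of_natDegree_lt ht))
    refine ⟨p, fun t => by rw [hp]; exact hy t, ?_⟩
    show (show B.A[X] from (AE_map i j hi f z h h').f p) = x
    ext t
    rw [AE_map_coeff, hp, hy1]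
  surj_tot := by
    intro x
    obtain ⟨p, hp⟩ := Polynomial.map_surjective (f.f : A.A →+* B.A) hs.surj_tot
      (show B.A[X] from x)
    exact ⟨p, hp⟩

lemma AE_X_mem (A : DGA k) (i j : ℤ) (z : A.A) (hi : Even i) (h : AdjData A i j z) :
    (X : A.A[X]) ∈ (A.adjE i j z hi h).gr i j := by
  intro t
  rw [coeff_X]
  split_ifs with ht
  · subst ht; simpa using A.one_mem
  · exact Submodule.zero_mem _

lemma AE_d_X (A : DGA k) (z : A.A) : A.dE z (X : A.A[X]) = C z := by
  rw [← monomial_one_one_eq_X, dE_monomial]
  simp [A.d_one]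

lemma AE_X_mul_divX {A : Type u} [Ring A] (x : A[X]) (hx : x.coeff 0 = 0) : X * x.divX = x := by
  have h := divX_mul_X_add x
  rw [hx, C_0, add_zero] at h
  rw [X_mul, h]

lemma AE_kill (A : DGA k) (i j : ℤ) (z : A.A) (hi : Even i) (h : AdjData A i j z) (hz : z = 0) :
    ∃ g : Hom (A.adjE i j z hi h) A, (∀ a, g.f ((AE_inc A i j z hi h).f a) = a) ∧
      IsStep g i j (X : A.A[X]) := by
  have hd : A.d 0 = (Hom.id A).f z := by rw [hz]; simp
  set g := AE_lift A i j z hi h A (Hom.id A) 0 (Submodule.zero_mem _) hd with hg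
  have hg0 : ∀ p : A.A[X], g.f p = p.coeff 0 := by
    intro p
    show Polynomial.eval₂ ((Hom.id A).f : A.A →+* A.A) 0 p = p.coeff 0
    rw [Polynomial.eval₂_at_zero]; rfl
  refine ⟨g, fun a => by rw [hg, AE_lift_C]; rfl, ?_⟩
  exact
    { mem := AE_X_mem A i j z hi h
      dv := by
        show A.dE z (X : A.A[X]) = 0
        rw [AE_d_X, hz, C_0]
      gv := by rw [hg0]; simp
      even := by
        intro _ x hx
        have hx' : X * (show A.A[X] from x) = 0 := hx
        show (show A.A[X] from x) = 0
        ext t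
        have := congrArg (fun q : A.A[X] => q.coeff (t + 1)) hx'
        simpa using this
      odd := by
        intro ho
        exact absurd hi (Int.not_even_iff_odd.mpr ho)
      ker := by
        intro n m x hx hx0
        rw [hg0] at hx0
        refine ⟨(show A.A[X] from x).divX, ?_, ?_⟩
        · intro t
          rw [coeff_divX]
          have := hx (t + 1)
          rwa [show n - ((t + 1 : ℕ) : ℤ) * i = n - i - t * i by push_cast; ring,
            show m - ((t + 1 : ℕ) : ℤ) * j = m - j - t * j by push_cast; ring] at this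
        · exact AE_X_mul_divX (show A.A[X] from x) hx0
      surj := by
        intro n m x hx
        exact ⟨(AE_inc A i j z hi h).f x, (AE_inc A i j z hi h).f_mem hx, by
          rw [hg, AE_lift_C]; rfl⟩
      surj_tot := by
        intro x
        exact ⟨(AE_inc A i j z hi h).f x, by rw [hg, AE_lift_C]; rfl⟩ }

lemma AE_coeff_zero (A : DGA k) {i j : ℤ} {z : A.A} (hi : Even i) (h : AdjData A i j z)
    {n m : ℤ} {x : A.A[X]} (hx : x ∈ (A.adjE i j z hi h).gr n m) (t : ℕ) (ht : m < t * j) :
    x.coeff t = 0 :=
  A.neg_right (by omega) (hx t)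

lemma AE_conn (A : DGA k) (i j : ℤ) (z : A.A) (hi : Even i) (h0 : 0 ≤ i)
    (h : AdjData A i j z) (hij : i < j) (hA : Conn A) : Conn (A.adjE i j z hi h) where
  zero := by
    intro x hx
    obtain ⟨c, hc⟩ := hA.zero _ (by simpa using hx 0)
    refine ⟨c, ?_⟩
    show (show A.A[X] from x) = C (algebraMap k A.A c)
    ext t
    rw [coeff_C]
    split_ifs with ht
    · subst ht; exact hc
    · have : (1 : ℤ) ≤ t := by omega
      exact AE_coeff_zero A hi h hx t (by nlinarith [h.j_pos])
  inj := by
    intro a b hab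
    have : C (algebraMap k A.A a) = C (algebraMap k A.A b) := hab
    exact hA.inj (C_injective this)
  cone := by
    intro n m x hx hx0
    have : ∃ t, (show A.A[X] from x).coeff t ≠ 0 := by
      by_contra hcon
      push Not at hcon
      apply hx0
      show (show A.A[X] from x) = 0
      ext t
      rw [hcon, coeff_zero]
    obtain ⟨t, ht⟩ := this
    have hj := h.j_pos
    have ht0 : (0 : ℤ) ≤ t := by positivity
    have h1 : 0 ≤ (t : ℤ) * i := mul_nonneg ht0 h0
    have h2 : (t : ℤ) * i ≤ t * j := mul_le_mul_of_nonneg_left hij.le ht0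
    rcases hA.cone _ _ _ (hx t) ht with ⟨e1, e2⟩ | ⟨e1, e2⟩
    · rcases Nat.eq_zero_or_pos t with rfl | hp
      · left; simp at e1 e2; exact ⟨e1, e2⟩
      · right
        have : (t : ℤ) * i < t * j := mul_lt_mul_of_pos_left hij (by exact_mod_cast hp)
        constructor <;> omega
    · right; constructor <;> omega
  fin := by
    intro n m
    have := hA.fin
    let φ : (A.adjE i j z hi h).gr n m →ₗ[k] (t : Fin (m.toNat + 1)) →
        A.gr (n - (t : ℕ) * i) (m - (t : ℕ) * j) :=
      { toFun := fun x t => ⟨(show A.A[X] from x.1).coeff t, x.2 t⟩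
        map_add' := fun x y => by
          ext t
          show (((show A.A[X] from x.1) + (show A.A[X] from y.1)).coeff t : A.A) = _
          rw [coeff_add]; rfl
        map_smul' := fun c x => by
          ext t
          show ((c • (show A.A[X] from x.1)).coeff t : A.A) = _
          rw [coeff_smul]; rfl }
    refine Module.Finite.of_injective φ ?_
    intro x y hxy
    apply Subtype.ext
    show (show A.A[X] from x.1) = (show A.A[X] from y.1)
    ext t
    by_cases ht : t < m.toNat + 1
    · have := congrArg (fun q => (q ⟨t, ht⟩ : A.A)) (congrArg (fun q s => ((q s : A.gr _ _) : A.A)) hxy)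
      exact this
    · have hj := h.j_pos
      have h1 : m < (t : ℤ) * j := by
        have : m < (t : ℤ) := by omega
        nlinarith [show (0 : ℤ) ≤ t by positivity]
      rw [AE_coeff_zero A hi h x.2 t h1, AE_coeff_zero A hi h y.2 t h1]

end DGA

theorem exists_adj_even (i j : ℤ) (hi : Even i) (h0 : 0 ≤ i) (hj : 1 ≤ j) :
    Nonempty (DGA.AdjFunctor k i j) :=
  ⟨{ obj := fun A z h => A.adjE i j z hi h
     inc := fun A z h => DGA.AE_inc A i j z hi h
     var := fun A z h => (X : A.A[X])
     inc_inj := fun A z h a b hab => C_injective hab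
     inc_mem := fun A z h n m a ha => by
       have := ha 0
       have e : (C a : A.A[X]).coeff 0 = a := coeff_C_zero
       have h2 : (C a : A.A[X]).coeff 0 ∈ A.gr (n - ((0 : ℕ) : ℤ) * i) (m - ((0 : ℕ) : ℤ) * j) := this
       rw [e] at h2
       simpa using h2
     var_mem := fun A z h => DGA.AE_X_mem A i j z hi h
     d_var := fun A z h => DGA.AE_d_X A z
     lift := fun A z h B f b hb hd _ =>
       ⟨DGA.AE_lift A i j z hi h B f b hb hd, DGA.AE_lift_C A i j z hi h B f b hb hd,
         DGA.AE_lift_X A i j z hi h B f b hb hd⟩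
     map := fun f z h h' => DGA.AE_map i j hi f z h h'
     map_inc := fun {A B} f z h h' a => by
       show Polynomial.mapAlgHom f.f (C a) = C (f.f a)
       simp [Polynomial.mapAlgHom]
     map_var := fun {A B} f z h h' => by
       show Polynomial.mapAlgHom f.f X = X
       simp [Polynomial.mapAlgHom]
     map_id := fun A z h => by
       apply DGA.Hom.ext
       intro p
       show (show A.A[X] from (DGA.AE_map i j hi (DGA.Hom.id A) z h h).f p) = p
       ext t
       rw [DGA.AE_map_coeff]; rfl
     map_comp := fun {A B D} f g z h h' h'' => by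
       apply DGA.Hom.ext
       intro p
       show (show D.A[X] from (DGA.AE_map i j hi g (f.f z) h' h'').f
         ((DGA.AE_map i j hi f z h h').f p)) = (DGA.AE_map i j hi (g.comp f) z h h'').f p
       ext t
       rw [DGA.AE_map_coeff, DGA.AE_map_coeff, DGA.AE_map_coeff]; rfl
     map_step := fun f z h h' i' j' v _ _ hs => DGA.AE_step i j hi f z h h' i' j' v hs
     kill := fun A z h hz => DGA.AE_kill A i j z hi h hz
     piece_lt := fun A z h n m hm x hx => by
       refine ⟨(show A.A[X] from x).coeff 0, by simpa using hx 0, ?_⟩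
       show C ((show A.A[X] from x).coeff 0) = x
       ext t
       rw [coeff_C]
       split_ifs with ht
       · rw [ht]
       · have h1 : (1 : ℤ) ≤ t := by omega
         exact (DGA.AE_coeff_zero A hi h hx t (by nlinarith)).symm
     piece_eq := fun A z h n hA x hx => by
       have hx1 := hx 1
       have e1 : n - ((1 : ℕ) : ℤ) * i = n - i := by push_cast; ring
       have e2 : j - ((1 : ℕ) : ℤ) * j = 0 := by push_cast; ring
       rw [e1, e2] at hx1
       have hc : ∃ c : k, (c ≠ 0 → n = i) ∧ (show A.A[X] from x).coeff 1 = algebraMap k A.A c := by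
         by_cases h0' : (show A.A[X] from x).coeff 1 = 0
         · exact ⟨0, fun h => absurd rfl h, by rw [h0', map_zero]⟩
         · have hn : n - i = 0 := by
             rcases hA.cone _ _ _ hx1 h0' with ⟨e, _⟩ | ⟨e, e'⟩
             · exact e
             · omega
           rw [hn] at hx1
           obtain ⟨c, hc⟩ := hA.zero _ hx1
           exact ⟨c, fun _ => by omega, hc⟩
       obtain ⟨c, hc, hc'⟩ := hc
       refine ⟨(show A.A[X] from x).coeff 0, by simpa using hx 0, c, hc, ?_⟩
       show (show A.A[X] from x) = C ((show A.A[X] from x).coeff 0) + c • (X : A.A[X])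
       ext t
       rw [coeff_add, coeff_C, coeff_smul, coeff_X]
       rcases Nat.lt_trichotomy t 1 with ht | rfl | ht
       · have : t = 0 := by omega
         subst this
         simp
       · rw [hc', Algebra.algebraMap_eq_smul_one]; simp
       · have h1 : (2 : ℤ) ≤ t := by exact_mod_cast ht
         rw [DGA.AE_coeff_zero A hi h hx t (by nlinarith), if_neg (by omega), if_neg (by omega)]
         simp
     piece_inj := fun A z h a c hA hac => by
       have hac' : C a + c • (X : A.A[X]) = 0 := hac
       constructor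
       · have := congrArg (fun q : A.A[X] => q.coeff 0) hac'
         simpa using this
       · have := congrArg (fun q : A.A[X] => q.coeff 1) hac'
         simp only [coeff_add, coeff_C, coeff_smul, coeff_X_one, coeff_zero] at this
         simp only [one_ne_zero, if_false, zero_add] at this
         apply hA.inj
         rw [Algebra.algebraMap_eq_smul_one, this, map_zero]
     conn := fun A z h hij hA => DGA.AE_conn A i j z hi h0 h hij hA }⟩

end FV
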