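import Pool.Agent.helper92.FV.Defs2

/-!
# MP_51fbee_al : the functor adjoining one odd variable
-/

namespace FV

universe u

variable {k : Type u} [Field k]

namespace DGA

/-- The pairs `(a, 0)`. -/
def AO_inc (A : DGA k) (i j : ℤ) (z : A.A) (hi : Odd i) (h : AdjData A i j z) :
    Hom A (A.adjO i j z hi h) where
  f := ({ toFun := fun a => ⟨a, 0⟩
          map_one' := rfl
          map_mul' := fun a b => by ext <;> simp
          map_zero' := rfl
          map_add' := fun a b => by ext <;> simp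
          commutes' := fun c => by ext <;> simp } : A.A →ₐ[k] OExt A)
  f_ε a := by
    show (⟨A.ε a, 0⟩ : OExt A) = A.εO ⟨a, 0⟩
    ext <;> simp
  f_d a := by
    show (⟨A.d a, 0⟩ : OExt A) = A.dO z ⟨a, 0⟩
    ext <;> simp
  f_mem := fun {n m a} ha => ⟨ha, Submodule.zero_mem _⟩

/-- Evaluation. -/
def AO_lift (A : DGA k) (i j : ℤ) (z : A.A) (hi : Odd i) (h : AdjData A i j z)
    (B : DGA k) (f : Hom A B) (b : B.A) (hb : b ∈ B.gr i j) (hd : B.d b = f.f z)
    (hbb : b * b = 0) : Hom (A.adjO i j z hi h) B where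
  f := ({ toFun := fun x => f.f x.fst + f.f x.snd * b
          map_one' := by simp
          map_mul' := fun x y => by
            have hc : ∀ a, b * a = B.ε a * b := B.comm_odd hb hi
            have e1 : f.f x.snd * b * f.f y.fst = f.f x.snd * f.f (A.ε y.fst) * b := by
              rw [mul_assoc, hc, f.f_ε, mul_assoc]
            have e2 : f.f x.snd * b * (f.f y.snd * b) = 0 := by
              rw [mul_assoc, ← mul_assoc b, hc, mul_assoc (B.ε (f.f y.snd)), hbb, mul_zero,
                mul_zero]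
            show f.f (x * y).fst + f.f (x * y).snd * b
              = (f.f x.fst + f.f x.snd * b) * (f.f y.fst + f.f y.snd * b)
            rw [mul_add, add_mul, add_mul, e1, e2, OExt.mul_fst, OExt.mul_snd]
            simp only [map_mul, map_add, add_mul, add_zero]
            rw [mul_assoc (f.f x.fst) (f.f y.snd) b]
            abel
          map_zero' := by simp
          map_add' := fun x y => by
            simp only [OExt.add_fst, OExt.add_snd, map_add, add_mul]
            abel
          commutes' := fun c => by simp } : OExt A →ₐ[k] B.A)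
  f_ε x := by
    have hε : B.ε b = -b := by rw [B.ε_gr hb, sg_odd hi, neg_one_smul]
    show f.f (A.εO x).fst + f.f (A.εO x).snd * b = B.ε (f.f (OExt.fst x) + f.f (OExt.snd x) * b)
    rw [εO_fst, εO_snd, map_add, map_mul, hε, f.f_ε, map_neg, f.f_ε, neg_mul, mul_neg]
  f_d x := by
    show f.f (A.dO z x).fst + f.f (A.dO z x).snd * b = B.d (f.f (OExt.fst x) + f.f (OExt.snd x) * b)
    rw [dO_fst, dO_snd, map_add B.d, B.d_mul, hd, map_add f.f, map_mul, f.f_d, f.f_d, f.f_ε]
    abel
  f_mem := by
    intro n m x hx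
    refine Submodule.add_mem _ (f.f_mem hx.1) ?_
    have := B.mul_mem (f.f_mem hx.2) hb
    rwa [sub_add_cancel, sub_add_cancel] at this

lemma AO_lift_inc (A : DGA k) (i j : ℤ) (z : A.A) (hi : Odd i) (h : AdjData A i j z)
    (B : DGA k) (f : Hom A B) (b : B.A) (hb : b ∈ B.gr i j) (hd : B.d b = f.f z)
    (hbb : b * b = 0) (a : A.A) :
    (AO_lift A i j z hi h B f b hb hd hbb).f ((AO_inc A i j z hi h).f a) = f.f a := by
  show f.f a + f.f 0 * b = f.f a
  simp

lemma AO_lift_var (A : DGA k) (i j : ℤ) (z : A.A) (hi : Odd i) (h : AdjData A i j z)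
    (B : DGA k) (f : Hom A B) (b : B.A) (hb : b ∈ B.gr i j) (hd : B.d b = f.f z)
    (hbb : b * b = 0) :
    (AO_lift A i j z hi h B f b hb hd hbb).f (⟨0, 1⟩ : OExt A) = b := by
  show f.f 0 + f.f 1 * b = b
  simp

/-- The map of exterior extensions. -/
def AO_map {A B : DGA k} (i j : ℤ) (hi : Odd i) (f : Hom A B) (z : A.A)
    (h : AdjData A i j z) (h' : AdjData B i j (f.f z)) :
    Hom (A.adjO i j z hi h) (B.adjO i j (f.f z) hi h') where
  f := ({ toFun := fun x => ⟨f.f x.fst, f.f x.snd⟩
          map_one' := by ext <;> simp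
          map_mul' := fun x y => by ext <;> simp [f.f_ε]
          map_zero' := by ext <;> simp
          map_add' := fun x y => by ext <;> simp
          commutes' := fun c => by ext <;> simp } : OExt A →ₐ[k] OExt B)
  f_ε x := by
    show (⟨f.f (A.εO x).fst, f.f (A.εO x).snd⟩ : OExt B)
      = B.εO ⟨f.f (OExt.fst x), f.f (OExt.snd x)⟩
    ext <;> simp [f.f_ε]
  f_d x := by
    show (⟨f.f (A.dO z x).fst, f.f (A.dO z x).snd⟩ : OExt B)
      = B.dO (f.f z) ⟨f.f (OExt.fst x), f.f (OExt.snd x)⟩
    ext <;> simp [f.f_ε, f.f_d]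
  f_mem := fun {n m x} hx => ⟨f.f_mem hx.1, f.f_mem hx.2⟩

lemma AO_step {A B : DGA k} (i j : ℤ) (hi : Odd i) (f : Hom A B) (z : A.A)
    (h : AdjData A i j z) (h' : AdjData B i j (f.f z)) (i' j' : ℤ) (v : A.A)
    (hs : IsStep f i' j' v) :
    IsStep (AO_map i j hi f z h h') i' j' ((AO_inc A i j z hi h).f v) where
  mem := (AO_inc A i j z hi h).f_mem hs.mem
  dv := by rw [← (AO_inc A i j z hi h).f_d, hs.dv, map_zero]
  gv := by
    show (⟨f.f v, f.f 0⟩ : OExt B) = 0
    ext <;> simp [hs.gv]
  even := by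
    intro he x hx
    have hx' : (⟨v, 0⟩ : OExt A) * (show OExt A from x) = 0 := hx
    have h1 := congrArg OExt.fst hx'
    have h2 := congrArg OExt.snd hx'
    simp only [OExt.mul_fst, OExt.mul_snd, OExt.zero_fst, OExt.zero_snd, zero_mul,
      add_zero] at h1 h2
    exact OExt.ext (hs.even he _ h1) (hs.even he _ h2)
  odd := by
    intro ho x
    constructor
    · intro hx
      have hx' : (⟨v, 0⟩ : OExt A) * (show OExt A from x) = 0 := hx
      have h1 := congrArg OExt.fst hx'
      have h2 := congrArg OExt.snd hx'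
      simp only [OExt.mul_fst, OExt.mul_snd, OExt.zero_fst, OExt.zero_snd, zero_mul,
        add_zero] at h1 h2
      exact OExt.ext ((hs.odd ho _).mp h1) ((hs.odd ho _).mp h2)
    · intro hx
      have hx' : (⟨f.f (OExt.fst x), f.f (OExt.snd x)⟩ : OExt B) = 0 := hx
      have h1 : f.f (OExt.fst x) = 0 := congrArg OExt.fst hx'
      have h2 : f.f (OExt.snd x) = 0 := congrArg OExt.snd hx'
      show (⟨v, 0⟩ : OExt A) * (show OExt A from x) = 0
      refine OExt.ext ((hs.odd ho _).mpr h1) ?_
      show v * OExt.snd x + 0 * A.ε (OExt.fst x) = 0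
      rw [zero_mul, add_zero]
      exact (hs.odd ho _).mpr h2
  ker := by
    intro n m x hx hx0
    have hx' : (⟨f.f (OExt.fst x), f.f (OExt.snd x)⟩ : OExt B) = 0 := hx0
    have h1 : f.f (OExt.fst x) = 0 := congrArg OExt.fst hx'
    have h2 : f.f (OExt.snd x) = 0 := congrArg OExt.snd hx'
    obtain ⟨y1, hy1, e1⟩ := hs.ker _ _ _ hx.1 h1
    obtain ⟨y2, hy2, e2⟩ := hs.ker _ _ _ hx.2 h2
    refine ⟨(⟨y1, y2⟩ : OExt A), ⟨hy1, ?_⟩, ?_⟩
    · rwa [show n - i - i' = n - i' - i by ring, show m - j - j' = m - j' - j by ring] at hy2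
    · refine OExt.ext e1 ?_
      show v * y2 + 0 * A.ε y1 = OExt.snd x
      rw [zero_mul, add_zero, e2]
  surj := by
    intro n m x hx
    obtain ⟨y1, hy1, e1⟩ := hs.surj _ _ _ hx.1
    obtain ⟨y2, hy2, e2⟩ := hs.surj _ _ _ hx.2
    exact ⟨(⟨y1, y2⟩ : OExt A), ⟨hy1, hy2⟩, OExt.ext e1 e2⟩
  surj_tot := by
    intro x
    obtain ⟨y1, e1⟩ := hs.surj_tot (OExt.fst x)
    obtain ⟨y2, e2⟩ := hs.surj_tot (OExt.snd x)
    exact ⟨(⟨y1, y2⟩ : OExt A), OExt.ext e1 e2⟩

lemma AO_var_mem (A : DGA k) (i j : ℤ) (z : A.A) (hi : Odd i) (h : AdjData A i j z) :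
    (⟨0, 1⟩ : OExt A) ∈ (A.adjO i j z hi h).gr i j := by
  refine ⟨Submodule.zero_mem _, ?_⟩
  show (1 : A.A) ∈ A.gr (i - i) (j - j)
  rw [sub_self, sub_self]
  exact A.one_mem

lemma AO_d_var (A : DGA k) (z : A.A) : A.dO z (⟨0, 1⟩ : OExt A) = ⟨z, 0⟩ := by
  ext
  · simp
  · simp [A.d_one]

lemma AO_kill (A : DGA k) (i j : ℤ) (z : A.A) (hi : Odd i) (h : AdjData A i j z) (hz : z = 0) :
    ∃ g : Hom (A.adjO i j z hi h) A, (∀ a, g.f ((AO_inc A i j z hi h).f a) = a) ∧
      IsStep g i j (⟨0, 1⟩ : OExt A) := by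
  have hd : A.d 0 = (Hom.id A).f z := by rw [hz]; simp
  set g := AO_lift A i j z hi h A (Hom.id A) 0 (Submodule.zero_mem _) hd (mul_zero _) with hg
  have hg0 : ∀ p : OExt A, g.f p = p.fst := by
    intro p
    show p.fst + p.snd * 0 = p.fst
    rw [mul_zero, add_zero]
  have hinc : ∀ a, g.f ((AO_inc A i j z hi h).f a) = a := fun a => hg0 ⟨a, 0⟩
  refine ⟨g, hinc, ?_⟩
  exact
    { mem := AO_var_mem A i j z hi h
      dv := by
        show A.dO z (⟨0, 1⟩ : OExt A) = 0
        rw [AO_d_var, hz]; rfl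
      gv := hg0 ⟨0, 1⟩
      even := by
        intro he
        exact absurd he (Int.not_even_iff_odd.mpr hi)
      odd := by
        intro _ x
        constructor
        · intro hx
          have hx' : (⟨0, 1⟩ : OExt A) * (show OExt A from x) = 0 := hx
          have h2 := congrArg OExt.snd hx'
          simp only [OExt.mul_snd, OExt.zero_snd, zero_mul, zero_add, one_mul] at h2
          rw [hg0]
          have := congrArg A.ε h2
          rwa [A.ε_ε, map_zero] at this
        · intro hx
          rw [hg0] at hx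
          show (⟨0, 1⟩ : OExt A) * (show OExt A from x) = 0
          refine OExt.ext ?_ ?_
          · show 0 * OExt.fst x = 0
            rw [zero_mul]
          · show 0 * OExt.snd x + 1 * A.ε (OExt.fst x) = 0
            rw [hx]; simp
      ker := by
        intro n m x hx hx0
        rw [hg0] at hx0
        refine ⟨(⟨A.ε (OExt.snd x), 0⟩ : OExt A), ⟨A.ε_mem hx.2, Submodule.zero_mem _⟩, ?_⟩
        refine OExt.ext ?_ ?_
        · show 0 * A.ε (OExt.snd x) = OExt.fst x
          rw [zero_mul, hx0]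
        · show (0 : A.A) * 0 + 1 * A.ε (A.ε (OExt.snd x)) = OExt.snd x
          rw [A.ε_ε]; simp
      surj := by
        intro n m x hx
        exact ⟨(AO_inc A i j z hi h).f x, (AO_inc A i j z hi h).f_mem hx, hinc x⟩
      surj_tot := by
        intro x
        exact ⟨(AO_inc A i j z hi h).f x, hinc x⟩ }

lemma AO_conn (A : DGA k) (i j : ℤ) (z : A.A) (hi : Odd i) (h0 : 0 ≤ i)
    (h : AdjData A i j z) (hij : i < j) (hA : Conn A) : Conn (A.adjO i j z hi h) where
  zero := by
    intro x hx
    obtain ⟨c, hc⟩ := hA.zero _ hx.1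
    refine ⟨c, ?_⟩
    have h2 : OExt.snd x = 0 := A.neg_right (by have := h.j_pos; omega) hx.2
    show (show OExt A from x) = algebraMap k (OExt A) c
    refine OExt.ext ?_ ?_
    · rw [OExt.algebraMap_fst]; exact hc
    · rw [OExt.algebraMap_snd]; exact h2
  inj := by
    intro a b hab
    have h1 : algebraMap k (OExt A) a = algebraMap k (OExt A) b := hab
    have h2 := congrArg OExt.fst h1
    rw [OExt.algebraMap_fst, OExt.algebraMap_fst] at h2
    exact hA.inj h2
  cone := by
    intro n m x hx hx0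
    have hj := h.j_pos
    by_cases h1 : OExt.fst x = 0
    · have h2 : OExt.snd x ≠ 0 := fun h2 => hx0 (OExt.ext h1 h2)
      right
      rcases hA.cone _ _ _ hx.2 h2 with ⟨e1, e2⟩ | ⟨e1, e2⟩ <;> constructor <;> omega
    · exact hA.cone _ _ _ hx.1 h1
  fin := by
    intro n m
    have := hA.fin
    let φ : (A.adjO i j z hi h).gr n m →ₗ[k] A.gr n m × A.gr (n - i) (m - j) :=
      { toFun := fun x => (⟨OExt.fst x.1, x.2.1⟩, ⟨OExt.snd x.1, x.2.2⟩)
        map_add' := fun x y => rfl
        map_smul' := fun c x => rfl }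
    refine Module.Finite.of_injective φ ?_
    intro x y hxy
    apply Subtype.ext
    have h1 := congrArg (fun p => ((p.1 : A.gr n m) : A.A)) hxy
    have h2 := congrArg (fun p => ((p.2 : A.gr (n - i) (m - j)) : A.A)) hxy
    exact OExt.ext h1 h2

end DGA

theorem exists_adj_odd (i j : ℤ) (hi : Odd i) (h0 : 0 ≤ i) (hj : 1 ≤ j) :
    Nonempty (DGA.AdjFunctor k i j) :=
  ⟨{ obj := fun A z h => A.adjO i j z hi h
     inc := fun A z h => DGA.AO_inc A i j z hi h
     var := fun A z h => (⟨0, 1⟩ : DGA.OExt A)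
     inc_inj := fun A z h a b hab => congrArg DGA.OExt.fst hab
     inc_mem := fun A z h n m a ha => ha.1
     var_mem := fun A z h => DGA.AO_var_mem A i j z hi h
     d_var := fun A z h => DGA.AO_d_var A z
     lift := fun A z h B f b hb hd hbb =>
       ⟨DGA.AO_lift A i j z hi h B f b hb hd (hbb hi),
         DGA.AO_lift_inc A i j z hi h B f b hb hd (hbb hi),
         DGA.AO_lift_var A i j z hi h B f b hb hd (hbb hi)⟩
     map := fun f z h h' => DGA.AO_map i j hi f z h h'
     map_inc := fun {A B} f z h h' a => by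
       show (⟨f.f a, f.f 0⟩ : DGA.OExt B) = ⟨f.f a, 0⟩
       rw [map_zero]
     map_var := fun {A B} f z h h' => by
       show (⟨f.f 0, f.f 1⟩ : DGA.OExt B) = ⟨0, 1⟩
       rw [map_zero, map_one]
     map_id := fun A z h => by
       apply DGA.Hom.ext
       intro p
       rfl
     map_comp := fun {A B D} f g z h h' h'' => by
       apply DGA.Hom.ext
       intro p
       rfl
     map_step := fun f z h h' i' j' v _ _ hs => DGA.AO_step i j hi f z h h' i' j' v hs
     kill := fun A z h hz => DGA.AO_kill A i j z hi h hz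
     piece_lt := fun A z h n m hm x hx => by
       refine ⟨DGA.OExt.fst x, hx.1, ?_⟩
       exact DGA.OExt.ext rfl (A.neg_right (by omega) hx.2).symm
     piece_eq := fun A z h n hA x hx => by
       have hx1 := hx.2
       rw [sub_self] at hx1
       have hc : ∃ c : k, (c ≠ 0 → n = i) ∧ DGA.OExt.snd x = algebraMap k A.A c := by
         by_cases h0' : DGA.OExt.snd x = 0
         · exact ⟨0, fun h => absurd rfl h, by rw [h0', map_zero]⟩
         · have hn : n - i = 0 := by
             rcases hA.cone _ _ _ hx1 h0' with ⟨e, _⟩ | ⟨e, e'⟩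
             · exact e
             · omega
           rw [hn] at hx1
           obtain ⟨c, hc⟩ := hA.zero _ hx1
           exact ⟨c, fun _ => by omega, hc⟩
       obtain ⟨c, hc, hc'⟩ := hc
       refine ⟨DGA.OExt.fst x, hx.1, c, hc, ?_⟩
       refine DGA.OExt.ext ?_ ?_
       · show DGA.OExt.fst x = DGA.OExt.fst x + c • (0 : A.A)
         rw [smul_zero, add_zero]
       · show DGA.OExt.snd x = 0 + c • (1 : A.A)
         rw [hc', Algebra.algebraMap_eq_smul_one, zero_add]
     piece_inj := fun A z h a c hA hac => by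
       have h1 : a + c • (0 : A.A) = 0 := congrArg DGA.OExt.fst hac
       have h2 : (0 : A.A) + c • (1 : A.A) = 0 := congrArg DGA.OExt.snd hac
       constructor
       · simpa using h1
       · apply hA.inj
         rw [Algebra.algebraMap_eq_smul_one, map_zero]
         rwa [zero_add] at h2
     conn := fun A z h hij hA => DGA.AO_conn A i j z hi h0 h hij hA }⟩

end FV
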